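import Pool.Agent.Helper133.BUProd
import Pool.Agent.P8H3.KI.Stm

/-!
# Project KI, part BU2: a Borsuk-Ulam theorem on the product of two spheres
-/

set_option autoImplicit false
set_option linter.all false

namespace Pool.Agent.P8H59.KI

open Finsupp Pool.Agent.Helper133.BU Pool.Agent.Helper133.BT Filter Topology

theorem Wc_cone_sh {V W' : Type*} (μ : V → W' → V) (t : V → ZMod 2) (z : V) (x : V) (a : List V)
    (y : W') (b : List W') : Wc t (cone z (sh μ (x :: a) (y :: b))) =
      (t z + t (μ x y)) * Wc t (sh μ (x :: a) (y :: b)) := by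
  rw [sh_cons_cons, Wc_cone_cone]

/-- the value on the shuffle product of two lists -/
theorem Wc_sh {V W' : Type*} (μ : V → W' → V) (t : V → ZMod 2) (σ : V → ZMod 2) (τ : W' → ZMod 2)
    (h : ∀ x y, t (μ x y) = σ x + τ y) (x : V) (a : List V) (y : W') (b : List W') :
    Wc t (sh μ (x :: a) (y :: b)) =
      ((a.length + b.length).choose a.length : ZMod 2) * (W σ (x :: a) * W τ (y :: b)) := by
  rcases a with _ | ⟨x', a⟩
  · rcases b with _ | ⟨y', b⟩
    · rw [sh_cons_cons, sh_nil_left, sh_nil_right, eps]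
      simp [cone_single, Wc_single, W]
    · have ih := Wc_sh μ t σ τ h x [] y' b
      rw [sh_cons_cons, sh_nil_left, zero_add]
      have e : (eps ([] : List V) (y' :: b) : Chain V) = 0 := by simp [eps]
      rw [e, add_zero, Wc_cone_sh, ih, h, h]
      simp only [W, List.length_nil, List.length_cons, zero_add, Nat.choose_zero_right]
      have := z2_add_self (σ x)
      push_cast
      linear_combination (W τ (y' :: b)) * this
  · rcases b with _ | ⟨y', b⟩
    · have ih := Wc_sh μ t σ τ h x' a y []
      rw [sh_cons_cons, sh_nil_right, add_zero]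
      have e : (eps (x' :: a) ([] : List W') : Chain V) = 0 := by simp [eps]
      rw [e, add_zero, Wc_cone_sh, ih, h, h]
      simp only [W, List.length_nil, List.length_cons, add_zero, Nat.choose_self]
      have := z2_add_self (τ y)
      push_cast
      linear_combination (W σ (x' :: a)) * this
    · have ih1 := Wc_sh μ t σ τ h x' a y (y' :: b)
      have ih2 := Wc_sh μ t σ τ h x (x' :: a) y' b
      rw [sh_cons_cons]
      have e : (eps (x' :: a) (y' :: b) : Chain V) = 0 := by simp [eps]
      rw [e, add_zero, map_add, map_add, Wc_cone_sh, Wc_cone_sh, ih1, ih2, h, h, h]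
      simp only [List.length_cons]
      have hc : ((a.length + 1 + (b.length + 1)).choose (a.length + 1) : ZMod 2) =
          ((a.length + (b.length + 1)).choose a.length : ZMod 2) +
          ((a.length + 1 + b.length).choose (a.length + 1) : ZMod 2) := by
        have e1 : a.length + 1 + (b.length + 1) = (a.length + (b.length + 1)) + 1 := by ring
        have e2 : a.length + 1 + b.length = a.length + (b.length + 1) := by ring
        rw [e1, e2, Nat.choose_succ_succ]
        push_cast
        ring
      rw [hc]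
      simp only [W]
      have h1 := z2_add_self (σ x)
      have h2 := z2_add_self (τ y)
      linear_combination
        (((a.length + (b.length + 1)).choose a.length : ZMod 2) * (W σ (x' :: a) *
          ((τ y + τ y') * W τ (y' :: b)))) * h2 +
        (((a.length + 1 + b.length).choose (a.length + 1) : ZMod 2) *
          (((σ x + σ x') * W σ (x' :: a)) * W τ (y' :: b))) * h1
termination_by a.length + b.length

theorem Wc_shc {V W' : Type*} (μ : V → W' → V) (t : V → ZMod 2) (σ : V → ZMod 2)
    (τ : W' → ZMod 2) (h : ∀ x y, t (μ x y) = σ x + τ y) (p q : ℕ)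
    {c : Chain V} {d : Chain W'} (hc : c ∈ S (fun l : List V => l.length = p + 1))
    (hd : d ∈ S (fun l : List W' => l.length = q + 1)) :
    Wc t (shc μ c d) = ((p + q).choose p : ZMod 2) * (Wc σ c * Wc τ d) := by
  have h1 : ∀ a : List V, a.length = p + 1 →
      Wc t (shc μ (single a 1) d) = ((p + q).choose p : ZMod 2) * (W σ a * Wc τ d) := by
    intro a ha
    have := lin_eq_zero ((Wc t).comp (shc μ (single a 1)) -
        (((p + q).choose p : ZMod 2) * W σ a) • Wc τ)
      (P := fun l : List W' => l.length = q + 1) (by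
        intro b hb
        simp only [LinearMap.sub_apply, LinearMap.comp_apply, LinearMap.smul_apply,
          shc_single_single, mul_one, one_smul, Wc_single, one_mul, smul_eq_mul]
        rcases a with _ | ⟨x, a⟩
        · simp at ha
        · rcases b with _ | ⟨y, b⟩
          · simp at hb
          · rw [Wc_sh μ t σ τ h]
            simp only [List.length_cons, Nat.add_right_cancel_iff] at ha hb
            rw [ha, hb]
            ring) hd
    simp only [LinearMap.sub_apply, LinearMap.comp_apply, LinearMap.smul_apply,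
      smul_eq_mul] at this
    rw [sub_eq_zero.mp this, mul_assoc]
  have := lin_eq_zero ((Wc t).comp ((shc μ).flip d) -
      (((p + q).choose p : ZMod 2) * Wc τ d) • Wc σ)
    (P := fun l : List V => l.length = p + 1) (by
      intro a ha
      simp only [LinearMap.sub_apply, LinearMap.comp_apply, LinearMap.smul_apply,
        LinearMap.flip_apply, smul_eq_mul]
      rw [h1 a ha, Wc_single, one_mul]
      ring) hc
  simp only [LinearMap.sub_apply, LinearMap.comp_apply, LinearMap.smul_apply,
    LinearMap.flip_apply, smul_eq_mul] at this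
  rw [sub_eq_zero.mp this]
  ring

/-- the reference function -/
noncomputable def tt (n : ℕ → ℕ) (v : Om n) : ZMod 2 := sg (v 0) + sg (v 1)

theorem eval2 (n : ℕ → ℕ) (r : ℕ) :
    Wc (tt n) (cc n r 2) = ((n 0 + n 1).choose (n 0) : ZMod 2) := by
  have h1 : Wc (fun v : Om n => sg (v 0)) (cc n r 1) = 1 := by
    rw [cc, cc, Wc_shc (mu n 0) (fun v : Om n => sg (v 0)) (fun _ => 0) sg _ 0 (n 0)
      (single_mem_S (by simp) 1)
      (S_mono (fun l hl => hl.1) (H_K (n 0) r (n 0) le_rfl)), Wc_sg_H _ _ _ le_rfl, Wc_single]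
    · simp [W]
    · intro x y
      simp [mu]
  rw [cc, Wc_shc (mu n 1) (tt n) (fun v => sg (v 0)) sg _ (n 0) (n 1) _
    (S_mono (fun l hl => hl.1) (H_K (n 1) r (n 1) le_rfl)), Wc_sg_H _ _ _ le_rfl, h1]
  · simp
  · intro x y
    simp [tt, mu]
  · refine S_mono ?_ (cc_mem_S n r 1)
    rintro l ⟨h, -⟩
    rw [h, D, D]; simp

theorem eval_gen (n : ℕ → ℕ) (hn : ∀ i, 1 ≤ n i) (hodd : Odd ((n 0 + n 1).choose (n 0)))
    (s : ℕ → Om n → ZMod 2)
    (hs : ∀ j < n 0 + n 1, ∀ k < 2, ∀ v ∈ PP n, s j (flp n k v) = s j v + 1) (r : ℕ) :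
    Wfc ((List.range (n 0 + n 1)).map s) (cc n r 2) = 1 := by
  have h1 : Wfc ((List.range (n 0 + n 1)).map s) (cc n r 2) =
      Wfc ((List.range (n 0 + n 1)).map (fun _ => tt n)) (cc n r 2) := by
    refine Wfc_replace_all (bd_cc n hn r 2) _ _ ?_ [] (by simp)
    rw [List.forall₂_map_left_iff, List.forall₂_map_right_iff, List.forall₂_same]
    intro j hj
    rw [List.mem_range] at hj
    refine ⟨fun _ => 1, ?_, ?_⟩
    · rintro g ⟨k, hk, rfl⟩ v hv
      exact hs j hj k hk v hv
    · rintro g ⟨k, hk, rfl⟩ v hv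
      have hk' : k = 0 ∨ k = 1 := by omega
      rcases hk' with rfl | rfl
      · have e0 : (flp n 0 v) 0 = -(v 0) := by simp [flp]
        have e1 : (flp n 0 v) 1 = v 1 := by simp [flp]
        simp only [tt]
        rw [e0, e1, sg_neg (hv 0)]
        ring
      · have e0 : (flp n 1 v) 0 = v 0 := by simp [flp]
        have e1 : (flp n 1 v) 1 = -(v 1) := by simp [flp]
        simp only [tt]
        rw [e0, e1, sg_neg (hv 1)]
        ring
  have h2 : Wfc ((List.range (n 0 + n 1)).map (fun _ => tt n)) (cc n r 2) =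
      Wc (tt n) (cc n r 2) := by
    have := lin_eq_zero (Wfc ((List.range (n 0 + n 1)).map (fun _ => tt n)) - Wc (tt n))
      (P := fun l : List (Om n) => l.length = n 0 + n 1 + 1) (by
        intro l hl
        rw [LinearMap.sub_apply, Wfc_single, Wc_single, one_mul, one_mul]
        have := Wf_W (fun v : Om n => v) (tt n)
          ((List.range (n 0 + n 1)).map (fun _ => tt n)) l (by simpa using hl) (by
            intro f hf
            rw [List.mem_map] at hf
            obtain ⟨j, _, rfl⟩ := hf
            exact ⟨0, fun y => by simp⟩)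
        rw [List.map_id'] at this
        rw [this, sub_self]) (c := cc n r 2) (by
          refine S_mono ?_ (cc_mem_S n r 2)
          rintro l ⟨h, -⟩
          rw [h, D, D, D]; simp)
    rw [LinearMap.sub_apply] at this
    exact sub_eq_zero.mp this
  rw [h1, h2, eval2]
  obtain ⟨m, hm⟩ := hodd
  rw [hm]
  push_cast
  have : (2 : ZMod 2) = 0 := by decide
  rw [this]; ring

/-- Borsuk-Ulam for functions which are odd in the first two blocks -/
theorem bu2_gen (n : ℕ → ℕ) (hn : ∀ i, 1 ≤ n i) (hodd : Odd ((n 0 + n 1).choose (n 0)))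
    (f : ℕ → Om n → ℝ) (hf : ∀ j, ContinuousOn (f j) (PP n))
    (hpar : ∀ j < n 0 + n 1, ∀ k < 2, ∀ v ∈ PP n, f j (flp n k v) = - f j v) :
    ∃ v ∈ PP n, ∀ j < n 0 + n 1, f j v = 0 := by
  classical
  let s : ℕ → Om n → ZMod 2 := fun j v =>
    if 0 < f j v then 1 else if f j v < 0 then 0 else tt n v
  have htt : ∀ k < 2, ∀ v ∈ PP n, tt n (flp n k v) = tt n v + 1 := by
    intro k hk v hv
    have hk' : k = 0 ∨ k = 1 := by omega
    rcases hk' with rfl | rfl
    · have e0 : (flp n 0 v) 0 = -(v 0) := by simp [flp]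
      have e1 : (flp n 0 v) 1 = v 1 := by simp [flp]
      simp only [tt]
      rw [e0, e1, sg_neg (hv 0)]
      ring
    · have e0 : (flp n 1 v) 0 = v 0 := by simp [flp]
      have e1 : (flp n 1 v) 1 = -(v 1) := by simp [flp]
      simp only [tt]
      rw [e0, e1, sg_neg (hv 1)]
      ring
  have hs : ∀ j < n 0 + n 1, ∀ k < 2, ∀ v ∈ PP n, s j (flp n k v) = s j v + 1 := by
    intro j hj k hk v hv
    have h1 := hpar j hj k hk v hv
    have h2 := htt k hk v hv
    simp only [s]
    rw [h1, h2]
    rcases lt_trichotomy (f j v) 0 with h3 | h3 | h3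
    · have e1 : ¬ 0 < f j v := not_lt.mpr h3.le
      have e2 : 0 < - f j v := by linarith
      simp [e1, h3, e2]
    · simp [h3]
    · have e1 : ¬ f j v < 0 := not_lt.mpr h3.le
      have e2 : ¬ 0 < - f j v := by linarith
      have e3 : - f j v < 0 := by linarith
      rw [if_neg e2, if_pos e3, if_pos h3]
      exact (z2_add_self 1).symm
  -- a small list with nonzero weight
  have hlist : ∀ r : ℕ, ∃ l : List (Om n), QQ n r 2 l ∧
      Wf ((List.range (n 0 + n 1)).map s) l ≠ 0 := by
    intro r
    by_contra hcon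
    push Not at hcon
    have h1 := eval_gen n hn hodd s hs r
    rw [lin_eq_zero (Wfc ((List.range (n 0 + n 1)).map s)) (P := QQ n r 2) (fun l hl => by
      rw [Wfc_single, one_mul]; exact hcon l hl) (cc_mem_S n r 2)] at h1
    exact zero_ne_one h1
  choose l hl hW using hlist
  have hne : ∀ r, ∃ x, x ∈ l r := by
    intro r
    have := (hl r).1
    rcases h : l r with _ | ⟨x, t⟩
    · rw [h] at this; simp at this
    · exact ⟨x, by simp⟩
  choose x hx using hne
  have hxP : ∀ r, x r ∈ PP n := fun r => (hl r).2.1 _ (hx r)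
  obtain ⟨v, hv, hlim⟩ := (PP_compact n).ultrafilter_le_nhds
    (Ultrafilter.map x (Ultrafilter.of (atTop : Filter ℕ))) (by
      rw [Ultrafilter.coe_map, Filter.le_principal_iff, Filter.mem_map]
      exact Filter.univ_mem' hxP)
  refine ⟨v, hv, ?_⟩
  set U : Filter ℕ := (Ultrafilter.of (atTop : Filter ℕ) : Filter ℕ) with hU
  have hUbot : U.NeBot := Ultrafilter.neBot _
  have hUle : U ≤ atTop := Ultrafilter.of_le _
  have hxlim : Tendsto x U (𝓝 v) := by
    rw [Ultrafilter.coe_map] at hlim
    exact hlim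
  have hrad : ∀ m, Tendsto (rad m) atTop (𝓝 0) := by
    intro m
    have h1 : Tendsto (fun r => (((m + 1 : ℕ) : ℝ) / ((m + 1 : ℕ) + 1)) ^ r) atTop (𝓝 0) := by
      apply tendsto_pow_atTop_nhds_zero_of_lt_one
      · positivity
      · rw [div_lt_one (by positivity)]; linarith
    have h2 := h1.mul_const 2
    rw [zero_mul] at h2
    exact h2
  -- any choice of points of the lists converges to `v`
  have hconv : ∀ y : ℕ → Om n, (∀ r, y r ∈ l r) → Tendsto y U (𝓝 v) := by
    intro y hy
    rw [tendsto_pi_nhds]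
    intro k
    have hxk : Tendsto (fun r => x r k) U (𝓝 (v k)) := (tendsto_pi_nhds.mp hxlim) k
    by_cases hk : k < 2
    · have hd : Tendsto (fun r => y r k - x r k) U (𝓝 0) := by
        refine squeeze_zero_norm (fun r => (hl r).2.2.2 _ (hy r) _ (hx r) k hk) ?_
        exact (hrad (n k)).mono_left hUle
      have := hd.add hxk
      simpa using this
    · have : (fun r => y r k) = fun r => x r k := by
        funext r
        rw [(hl r).2.2.1 _ (hy r) k (by omega), (hl r).2.2.1 _ (hx r) k (by omega)]
      rw [this]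
      exact hxk
  intro j hj
  have hdiff : ∀ r, ∃ a ∈ l r, ∃ b ∈ l r, s j a ≠ s j b := fun r =>
    Wf_ne_zero (hW r) (s j) (List.mem_map.mpr ⟨j, List.mem_range.mpr hj, rfl⟩)
  choose a ha b hb hab using hdiff
  have haP : ∀ r, a r ∈ PP n := fun r => (hl r).2.1 _ (ha r)
  have hbP : ∀ r, b r ∈ PP n := fun r => (hl r).2.1 _ (hb r)
  have hfa : Tendsto (fun r => f j (a r)) U (𝓝 (f j v)) := by
    have h1 : Tendsto a U (𝓝[PP n] v) :=
      tendsto_nhdsWithin_iff.mpr ⟨hconv a ha, Filter.univ_mem' haP⟩
    exact (hf j v hv).tendsto.comp h1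
  have hfb : Tendsto (fun r => f j (b r)) U (𝓝 (f j v)) := by
    have h1 : Tendsto b U (𝓝[PP n] v) :=
      tendsto_nhdsWithin_iff.mpr ⟨hconv b hb, Filter.univ_mem' hbP⟩
    exact (hf j v hv).tendsto.comp h1
  have hprod : ∀ r, f j (a r) * f j (b r) ≤ 0 := by
    intro r
    by_contra hcon
    push Not at hcon
    apply hab r
    simp only [s]
    rcases pos_and_pos_or_neg_and_neg_of_mul_pos hcon with ⟨h1, h2⟩ | ⟨h1, h2⟩
    · rw [if_pos h1, if_pos h2]
    · rw [if_neg (not_lt.mpr h1.le), if_neg (not_lt.mpr h2.le), if_pos h1, if_pos h2]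
  have hle : f j v * f j v ≤ 0 := le_of_tendsto (hfa.mul hfb) (Filter.univ_mem' hprod)
  exact mul_self_eq_zero.mp (le_antisymm hle (mul_self_nonneg _))

/-- the dimensions -/
def nn (p q : ℕ) : ℕ → ℕ
  | 0 => p
  | 1 => q
  | _ => 1

theorem K_ne_zero {m : ℕ} {y : Fin (m + 1) → ℝ} (hy : y ∈ K m) : y ≠ 0 := by
  rintro rfl
  simp [K] at hy

/-- **BU2** -/
theorem bu2 : Pool.Agent.P8H3.KI.S_BU2 := by
  intro p q hp hq hodd f hf hx hy
  have hn : ∀ i, 1 ≤ nn p q i := by
    intro i
    match i with
    | 0 => exact hp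
    | 1 => exact hq
    | (k + 2) => exact le_rfl
  obtain ⟨v, hv, h⟩ := bu2_gen (nn p q) hn hodd
    (fun j v => if h : j < p + q then f ⟨j, h⟩ (v 0) (v 1) else 0) (by
      intro j
      by_cases h : j < p + q
      · simp only [h, dif_pos]
        have h1 : Continuous fun v : Om (nn p q) => ((v 0, v 1) :
            (Fin (p + 1) → ℝ) × (Fin (q + 1) → ℝ)) :=
          (continuous_apply 0).prodMk (continuous_apply 1)
        exact ((hf ⟨j, h⟩).comp h1).continuousOn
      · simp only [h, dif_neg, not_false_eq_true]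
        exact continuousOn_const) (by
      intro j hj k hk v hv
      have hj' : j < p + q := hj
      simp only [hj', dif_pos]
      have hk' : k = 0 ∨ k = 1 := by omega
      rcases hk' with rfl | rfl
      · have e0 : (flp (nn p q) 0 v) 0 = -(v 0) := by simp [flp]
        have e1 : (flp (nn p q) 0 v) 1 = v 1 := by simp [flp]
        rw [e0, e1]
        exact hx _ _ _
      · have e0 : (flp (nn p q) 1 v) 0 = v 0 := by simp [flp]
        have e1 : (flp (nn p q) 1 v) 1 = -(v 1) := by simp [flp]
        rw [e0, e1]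
        exact hy _ _ _)
  refine ⟨v 0, v 1, K_ne_zero (hv 0), K_ne_zero (hv 1), ?_⟩
  intro i
  have := h i.1 i.2
  simpa using this

end Pool.Agent.P8H59.KI
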