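import Pool.Agent.P8H3.KI.Stm

/-!
# Project KI, part SKEW: common zeros of skew forms
-/

set_option autoImplicit false
set_option linter.all false

namespace Pool.Agent.P8H59.KI

open Filter Topology

theorem odd_choose (n k : ℕ) (hk : k < 2 ^ n) : Odd ((2 ^ n - 1).choose k) := by
  induction k with
  | zero => simp
  | succ k ih =>
    have h1 := ih (by omega)
    have h2 : 2 ∣ (2 ^ n).choose (k + 1) :=
      Nat.Prime.dvd_choose_pow Nat.prime_two (by omega) (by omega)
    have h3 : (2 ^ n).choose (k + 1) = (2 ^ n - 1).choose k + (2 ^ n - 1).choose (k + 1) := by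
      have : 2 ^ n = (2 ^ n - 1) + 1 := by omega
      conv_lhs => rw [this]
      rw [Nat.choose_succ_succ]
    rw [h3] at h2
    rcases Nat.even_or_odd ((2 ^ n - 1).choose (k + 1)) with h4 | h4
    · exfalso
      obtain ⟨a, ha⟩ := h1
      obtain ⟨b, hb⟩ := h4
      omega
    · exact h4

/-- padding with a zero -/
def pad (P : ℕ) (x : Fin (P - 1 + 1) → ℝ) (i : Fin (P + 1)) : ℝ :=
  if h : i.1 < P - 1 + 1 then x ⟨i.1, h⟩ else 0

theorem pad_neg (P : ℕ) (x : Fin (P - 1 + 1) → ℝ) (i : Fin (P + 1)) :
    pad P (-x) i = - pad P x i := by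
  unfold pad
  split_ifs <;> simp

theorem pad_cont (P : ℕ) (i : Fin (P + 1)) : Continuous fun x => pad P x i := by
  unfold pad
  split_ifs with h
  · exact continuous_apply _
  · exact continuous_const

theorem pad_ne (P : ℕ) (hP : 1 ≤ P) (x : Fin (P - 1 + 1) → ℝ) (hx : x ≠ 0) : pad P x ≠ 0 := by
  intro h
  apply hx
  funext i
  have h1 := congrFun h ⟨i.1, by have := i.2; omega⟩
  have hi := i.2
  unfold pad at h1
  rw [dif_pos hi] at h1
  exact h1

theorem skew (hB : Pool.Agent.P8H3.KI.S_BU2) : Pool.Agent.P8H3.KI.S_SKEW := by
  intro V _ _ _ s hs m β hm hβ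
  rcases Nat.eq_zero_or_pos s with rfl | hs0
  · -- no forms
    have hm0 : m = 0 := by simp at hm; omega
    subst hm0
    have hfr : 1 < Module.finrank ℝ V := by simpa using hs
    have hnt : Nontrivial V := Module.nontrivial_of_finrank_pos (R := ℝ) (by omega)
    obtain ⟨x, hx⟩ := exists_ne (0 : V)
    obtain ⟨y, hy⟩ := exists_linearIndependent_pair_of_one_lt_finrank hfr hx
    exact ⟨x, y, hy, fun i => i.elim0⟩
  · set P := 2 ^ s with hP
    have hP2 : 2 ≤ P := by
      rw [hP]
      calc 2 = 2 ^ 1 := by norm_num
        _ ≤ 2 ^ s := Nat.pow_le_pow_right (by norm_num) hs0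
    have hm' : m + 2 ≤ 2 * P := by rw [hP]; rw [pow_succ] at hm; omega
    obtain ⟨f, hf⟩ := exists_linearIndependent_of_le_finrank (R := ℝ) (M := V) (n := P + 1) (by omega)
    have hodd : Odd ((P - 1 + P).choose (P - 1)) := by
      have h1 : P - 1 + P = 2 ^ (s + 1) - 1 := by rw [pow_succ]; omega
      rw [h1]
      exact odd_choose (s + 1) (P - 1) (by rw [pow_succ]; omega)
    let F : Fin (P - 1 + P) → (Fin (P - 1 + 1) → ℝ) → (Fin (P + 1) → ℝ) → ℝ := fun j x y =>
      if h : j.1 < m then ∑ k, ∑ l, pad P x k * y l * β ⟨j.1, h⟩ (f k) (f l)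
      else if j.1 = m then ∑ k, pad P x k * y k else 0
    obtain ⟨x, y, hx, hy, hz⟩ := hB (P - 1) P (by omega) (by omega) hodd F (by
      intro j
      simp only [F]
      split_ifs with h1 h2
      · refine continuous_finsetSum _ fun k _ => continuous_finsetSum _ fun l _ => ?_
        refine Continuous.mul (Continuous.mul ?_ ?_) continuous_const
        · exact (pad_cont P k).comp continuous_fst
        · exact (continuous_apply l).comp continuous_snd
      · refine continuous_finsetSum _ fun k _ => ?_
        refine Continuous.mul ?_ ?_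
        · exact (pad_cont P k).comp continuous_fst
        · exact (continuous_apply k).comp continuous_snd
      · exact continuous_const) (by
      intro j x y
      simp only [F]
      split_ifs with h1 h2
      · rw [← Finset.sum_neg_distrib]
        refine Finset.sum_congr rfl fun k _ => ?_
        rw [← Finset.sum_neg_distrib]
        refine Finset.sum_congr rfl fun l _ => ?_
        rw [pad_neg]; ring
      · rw [← Finset.sum_neg_distrib]
        refine Finset.sum_congr rfl fun k _ => ?_
        rw [pad_neg]; ring
      · simp) (by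
      intro j x y
      simp only [F]
      split_ifs with h1 h2
      · rw [← Finset.sum_neg_distrib]
        refine Finset.sum_congr rfl fun k _ => ?_
        rw [← Finset.sum_neg_distrib]
        refine Finset.sum_congr rfl fun l _ => ?_
        rw [Pi.neg_apply]; ring
      · rw [← Finset.sum_neg_distrib]
        refine Finset.sum_congr rfl fun k _ => ?_
        rw [Pi.neg_apply]; ring
      · simp)
    have hpx := pad_ne P (by omega) x hx
    have hdot : ∑ k, pad P x k * y k = 0 := by
      have := hz ⟨m, by omega⟩
      simpa [F] using this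
    refine ⟨∑ k, pad P x k • f k, ∑ l, y l • f l, ?_, ?_⟩
    · rw [LinearIndependent.pair_iff]
      intro a b hab
      have h1 : ∑ k, (a * pad P x k + b * y k) • f k = 0 := by
        rw [← hab, Finset.smul_sum, Finset.smul_sum, ← Finset.sum_add_distrib]
        refine Finset.sum_congr rfl fun k _ => ?_
        rw [add_smul, mul_smul, mul_smul]
      have h2 := Fintype.linearIndependent_iff.mp hf _ h1
      have h3 : a * ∑ k, pad P x k * pad P x k = 0 := by
        have : ∑ k, pad P x k * (a * pad P x k + b * y k) = 0 := by
          refine Finset.sum_eq_zero fun k _ => ?_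
          rw [h2 k, mul_zero]
        have e : ∑ k, pad P x k * (a * pad P x k + b * y k) =
            a * ∑ k, pad P x k * pad P x k + b * ∑ k, pad P x k * y k := by
          rw [Finset.mul_sum, Finset.mul_sum, ← Finset.sum_add_distrib]
          refine Finset.sum_congr rfl fun k _ => ?_
          ring
        rw [e, hdot, mul_zero, add_zero] at this
        exact this
      have h4 : b * ∑ k, y k * y k = 0 := by
        have : ∑ k, y k * (a * pad P x k + b * y k) = 0 := by
          refine Finset.sum_eq_zero fun k _ => ?_
          rw [h2 k, mul_zero]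
        have e : ∑ k, y k * (a * pad P x k + b * y k) =
            a * ∑ k, pad P x k * y k + b * ∑ k, y k * y k := by
          rw [Finset.mul_sum, Finset.mul_sum, ← Finset.sum_add_distrib]
          refine Finset.sum_congr rfl fun k _ => ?_
          ring
        rw [e, hdot, mul_zero, zero_add] at this
        exact this
      have pos : ∀ w : Fin (P + 1) → ℝ, w ≠ 0 → ∑ k, w k * w k ≠ 0 := by
        intro w hw h0
        apply hw
        rw [Finset.sum_eq_zero_iff_of_nonneg (fun k _ => mul_self_nonneg _)] at h0
        funext k
        exact mul_self_eq_zero.mp (h0 k (Finset.mem_univ k))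
      constructor
      · exact (mul_eq_zero.mp h3).resolve_right (pos _ hpx)
      · exact (mul_eq_zero.mp h4).resolve_right (pos _ hy)
    · intro i
      have h1 := hz ⟨i.1, by have := i.2; omega⟩
      simp only [F, i.2, dif_pos] at h1
      have e1 : β i (∑ k, pad P x k • f k) = ∑ k, pad P x k • β i (f k) := by
        rw [map_sum]
        refine Finset.sum_congr rfl fun k _ => ?_
        rw [map_smul]
      rw [e1, LinearMap.sum_apply]
      rw [← h1]
      refine Finset.sum_congr rfl fun k _ => ?_
      rw [LinearMap.smul_apply, map_sum, smul_eq_mul, Finset.mul_sum]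
      refine Finset.sum_congr rfl fun l _ => ?_
      rw [map_smul, smul_eq_mul]
      ring

end Pool.Agent.P8H59.KI
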